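import Mathlib

open MeasureTheory Filter Topology Set
open scoped ENNReal

namespace Pool.Agent.X97

/-- Fatou's lemma for Bochner integrals of nonnegative functions. -/
lemma fatou {α : Type*} [MeasurableSpace α] {μ : Measure α} {F : ℕ → α → ℝ} {f : α → ℝ}
    (hF : ∀ n, Integrable (F n) μ) (hnn : ∀ n, 0 ≤ᵐ[μ] F n)
    (hlim : ∀ᵐ x ∂μ, Tendsto (fun n => F n x) atTop (𝓝 (f x)))
    {c : ℕ → ℝ} {C : ℝ} (hc : ∀ n, ∫ x, F n x ∂μ ≤ c n) (hC : Tendsto c atTop (𝓝 C)) :
    Integrable f μ ∧ ∫ x, f x ∂μ ≤ C := by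
  have hfm : AEStronglyMeasurable f μ :=
    aestronglyMeasurable_of_tendsto_ae atTop (fun n => (hF n).aestronglyMeasurable) hlim
  have hfnn : 0 ≤ᵐ[μ] f := by
    filter_upwards [ae_all_iff.mpr hnn, hlim] with x hx hx2
    exact ge_of_tendsto' hx2 hx
  have hC0 : 0 ≤ C := ge_of_tendsto' hC (fun n => (integral_nonneg_of_ae (hnn n)).trans (hc n))
  have hle : ∫⁻ x, ENNReal.ofReal (f x) ∂μ ≤ ENNReal.ofReal C := by
    calc ∫⁻ x, ENNReal.ofReal (f x) ∂μ
        = ∫⁻ x, liminf (fun n => ENNReal.ofReal (F n x)) atTop ∂μ := by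
          apply lintegral_congr_ae
          filter_upwards [hlim] with x hx
          exact ((ENNReal.continuous_ofReal.tendsto _).comp hx).liminf_eq.symm
      _ ≤ liminf (fun n => ∫⁻ x, ENNReal.ofReal (F n x) ∂μ) atTop :=
          lintegral_liminf_le' (fun n => (hF n).aestronglyMeasurable.aemeasurable.ennreal_ofReal)
      _ ≤ liminf (fun n => ENNReal.ofReal (c n)) atTop := by
          refine liminf_le_liminf (Eventually.of_forall (fun n => ?_))
          show ∫⁻ x, ENNReal.ofReal (F n x) ∂μ ≤ ENNReal.ofReal (c n)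
          rw [← ofReal_integral_eq_lintegral_ofReal (hF n) (hnn n)]
          exact ENNReal.ofReal_le_ofReal (hc n)
      _ = ENNReal.ofReal C := ((ENNReal.continuous_ofReal.tendsto _).comp hC).liminf_eq
  have hint : Integrable f μ := by
    refine ⟨hfm, ?_⟩
    rw [hasFiniteIntegral_iff_ofReal hfnn]
    exact hle.trans_lt ENNReal.ofReal_lt_top
  refine ⟨hint, ?_⟩
  rw [integral_eq_lintegral_of_nonneg_ae hfnn hfm]
  exact ENNReal.toReal_le_of_le_ofReal hC0 hle

/-- Scheffé / Brezis-Lieb: a.e. convergence without gain of norm gives `L¹` convergence. -/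
lemma scheffe {α : Type*} [MeasurableSpace α] {μ : Measure α} {F : ℕ → α → ℝ} {f : α → ℝ}
    (hf : Integrable f μ) (hF : ∀ n, Integrable (F n) μ)
    (hlim : ∀ᵐ x ∂μ, Tendsto (fun n => F n x) atTop (𝓝 (f x)))
    (hle : ∀ n, ∫ x, |F n x| ∂μ ≤ ∫ x, |f x| ∂μ) :
    Tendsto (fun n => ∫ x, |F n x - f x| ∂μ) atTop (𝓝 0) := by
  by_contra hcon
  rw [Metric.tendsto_atTop] at hcon
  push Not at hcon
  obtain ⟨ε, hε, hfreq⟩ := hcon
  have hfreq' : ∃ᶠ n in atTop, ε ≤ ∫ x, |F n x - f x| ∂μ := by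
    rw [frequently_atTop]
    intro N
    obtain ⟨n, hn, h⟩ := hfreq N
    refine ⟨n, hn, ?_⟩
    rwa [Real.dist_eq, sub_zero, abs_of_nonneg (integral_nonneg (fun _ => abs_nonneg _))] at h
  obtain ⟨φ, hφ, hφε⟩ := extraction_of_frequently_atTop hfreq'
  have key := fatou (μ := μ) (F := fun n x => |f x| + |F (φ n) x| - |F (φ n) x - f x|)
    (f := fun x => 2 * |f x|) (c := fun _ => 2 * ∫ x, |f x| ∂μ - ε) (C := 2 * ∫ x, |f x| ∂μ - ε)
    (fun n => (hf.abs.add (hF _).abs).sub ((hF _).sub hf).abs)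
    (fun n => ae_of_all _ (fun x => by
      have h1 := abs_sub (F (φ n) x) (f x)
      show (0 : ℝ) ≤ _
      linarith))
    (by
      filter_upwards [hlim] with x hx
      have h1 := hx.comp hφ.tendsto_atTop
      have h2 : Tendsto (fun n => |f x| + |F (φ n) x| - |F (φ n) x - f x|) atTop
          (𝓝 (|f x| + |f x| - |f x - f x|)) :=
        (tendsto_const_nhds.add h1.abs).sub (h1.sub tendsto_const_nhds).abs
      have h3 : |f x| + |f x| - |f x - f x| = 2 * |f x| := by
        rw [sub_self, abs_zero, sub_zero]; ring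
      rwa [h3] at h2)
    (fun n => by
      have e1 : ∫ x, (|f x| + |F (φ n) x| - |F (φ n) x - f x|) ∂μ =
          ∫ x, (|f x| + |F (φ n) x|) ∂μ - ∫ x, |F (φ n) x - f x| ∂μ :=
        integral_sub (hf.abs.add (hF _).abs) ((hF _).sub hf).abs
      have e2 : ∫ x, (|f x| + |F (φ n) x|) ∂μ = ∫ x, |f x| ∂μ + ∫ x, |F (φ n) x| ∂μ :=
        integral_add hf.abs (hF _).abs
      rw [e1, e2]
      have h1 := hle (φ n)
      have h2 := hφε n
      linarith)
    tendsto_const_nhds
  have h4 := key.2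
  rw [integral_const_mul] at h4
  linarith

end Pool.Agent.X97
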