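import Mathlib
import Pool.Agent.X97.Fatou

open MeasureTheory Filter Topology Set
open scoped ENNReal ContDiff

namespace Pool.Agent.X97

variable {N : ℕ}

/-- Euclidean space -/
abbrev EN (N : ℕ) := EuclideanSpace ℝ (Fin N)

/-- directional derivative -/
noncomputable def pd (e : EN N) (F : EN N → ℝ) (x : EN N) : ℝ := fderiv ℝ F x e

/-- `i`-th basis vector -/
noncomputable def ei (i : Fin N) : EN N := EuclideanSpace.single i (1 : ℝ)

/-- The Laplacian: sum of the second partial derivatives. -/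
noncomputable def lap (F : EN N → ℝ) (x : EN N) : ℝ := ∑ i, pd (ei i) (pd (ei i) F) x

/-- convolution -/
noncomputable def cv (f ρ : EN N → ℝ) (x : EN N) : ℝ := ∫ t, f t * ρ (x - t)

lemma cv_eq (f ρ : EN N → ℝ) :
    cv f ρ = MeasureTheory.convolution f ρ (ContinuousLinearMap.mul ℝ ℝ) volume := by
  funext x
  rfl

lemma contDiff_pd1 {F : EN N → ℝ} (hF : ContDiff ℝ 2 F) (e : EN N) : ContDiff ℝ 1 (pd e F) := by
  have h1 : ContDiff ℝ 1 (fderiv ℝ F) := hF.fderiv_right (by norm_num)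
  exact h1.clm_apply contDiff_const

lemma continuous_pd {F : EN N → ℝ} (hF : ContDiff ℝ 1 F) (e : EN N) : Continuous (pd e F) :=
  (hF.continuous_fderiv one_ne_zero).clm_apply continuous_const

lemma contDiff_pd_top {F : EN N → ℝ} (hF : ContDiff ℝ ∞ F) (e : EN N) : ContDiff ℝ ∞ (pd e F) := by
  have h1 : ContDiff ℝ ∞ (fderiv ℝ F) := hF.fderiv_right (by simp)
  exact h1.clm_apply contDiff_const

lemma hasCompactSupport_pd {F : EN N → ℝ} (hF : HasCompactSupport F) (e : EN N) :
    HasCompactSupport (pd e F) := hF.fderiv_apply (𝕜 := ℝ) e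

lemma tsupport_pd (F : EN N → ℝ) (e : EN N) : tsupport (pd e F) ⊆ tsupport F :=
  tsupport_fderiv_apply_subset ℝ e

lemma parts {w φ : EN N → ℝ} (hw : ContDiff ℝ 2 w) (hφ : ContDiff ℝ 2 φ)
    (hc : HasCompactSupport φ) (e : EN N) :
    ∫ x, w x * pd e (pd e φ) x = ∫ x, pd e (pd e w) x * φ x := by
  have hw1 : ContDiff ℝ 1 (pd e w) := contDiff_pd1 hw e
  have hφ1 : ContDiff ℝ 1 (pd e φ) := contDiff_pd1 hφ e
  have hw2 : Continuous (pd e (pd e w)) := continuous_pd hw1 e
  have hφ2 : Continuous (pd e (pd e φ)) := continuous_pd hφ1 e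
  have hc1 := hasCompactSupport_pd hc e
  have hc2 := hasCompactSupport_pd hc1 e
  have e1 := integral_mul_fderiv_eq_neg_fderiv_mul_of_integrable (μ := (volume : Measure (EN N)))
    (f := w) (g := pd e φ) (v := e)
    ((hw1.continuous.mul hφ1.continuous).integrable_of_hasCompactSupport hc1.mul_left)
    ((hw.continuous.mul hφ2).integrable_of_hasCompactSupport hc2.mul_left)
    ((hw.continuous.mul hφ1.continuous).integrable_of_hasCompactSupport hc1.mul_left)
    (fun x _ => (hw.differentiable two_ne_zero) x) (fun x _ => (hφ1.differentiable one_ne_zero) x)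
  have e2 := integral_mul_fderiv_eq_neg_fderiv_mul_of_integrable (μ := (volume : Measure (EN N)))
    (f := pd e w) (g := φ) (v := e)
    ((hw2.mul hφ.continuous).integrable_of_hasCompactSupport hc.mul_left)
    ((hw1.continuous.mul hφ1.continuous).integrable_of_hasCompactSupport hc1.mul_left)
    ((hw1.continuous.mul hφ.continuous).integrable_of_hasCompactSupport hc.mul_left)
    (fun x _ => (hw1.differentiable one_ne_zero) x) (fun x _ => (hφ.differentiable two_ne_zero) x)
  have e3 : ∫ x, w x * pd e (pd e φ) x = -∫ x, pd e w x * pd e φ x := e1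
  have e4 : ∫ x, pd e w x * pd e φ x = -∫ x, pd e (pd e w) x * φ x := e2
  rw [e3, e4, neg_neg]

lemma continuous_lap {F : EN N → ℝ} (hF : ContDiff ℝ 2 F) : Continuous (lap F) := by
  unfold lap
  apply continuous_finsetSum
  intro i _
  exact continuous_pd (contDiff_pd1 hF (ei i)) (ei i)

lemma tsupport_lap (F : EN N → ℝ) : Function.support (lap F) ⊆ tsupport F := by
  intro x hx
  by_contra hn
  apply hx
  unfold lap
  apply Finset.sum_eq_zero
  intro i _
  exact image_eq_zero_of_notMem_tsupport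
    (fun h => hn (tsupport_pd F (ei i) (tsupport_pd _ (ei i) h)))

lemma hasCompactSupport_lap {F : EN N → ℝ} (hF : HasCompactSupport F) :
    HasCompactSupport (lap F) :=
  hF.mono' (tsupport_lap F)

lemma parts_lap {w φ : EN N → ℝ} (hw : ContDiff ℝ 2 w) (hφ : ContDiff ℝ 2 φ)
    (hc : HasCompactSupport φ) : ∫ x, w x * lap φ x = ∫ x, lap w x * φ x := by
  have hcont : ∀ {F : EN N → ℝ}, ContDiff ℝ 2 F → ∀ i, Continuous (pd (ei i) (pd (ei i) F)) :=
    fun hF i => continuous_pd (contDiff_pd1 hF (ei i)) (ei i)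
  unfold lap
  simp_rw [Finset.mul_sum, Finset.sum_mul]
  rw [integral_finsetSum, integral_finsetSum]
  · exact Finset.sum_congr rfl (fun i _ => parts hw hφ hc (ei i))
  · intro i _
    exact ((hcont hw i).mul hφ.continuous).integrable_of_hasCompactSupport hc.mul_left
  · intro i _
    exact (hw.continuous.mul (hcont hφ i)).integrable_of_hasCompactSupport
      (hasCompactSupport_pd (hasCompactSupport_pd hc (ei i)) (ei i)).mul_left

/-! ### Kato inequality for smooth functions -/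

lemma pd_comp {v : EN N → ℝ} (hv : Differentiable ℝ v) {Φ Φ' : ℝ → ℝ}
    (h1 : ∀ t, HasDerivAt Φ (Φ' t) t) (e x : EN N) :
    pd e (fun y => Φ (v y)) x = Φ' (v x) * pd e v x := by
  unfold pd
  have h2 : HasFDerivAt (fun y => Φ (v y)) (Φ' (v x) • fderiv ℝ v x) x :=
    (h1 (v x)).comp_hasFDerivAt x (hv x).hasFDerivAt
  rw [h2.fderiv]
  simp

lemma pd_pd_comp {v : EN N → ℝ} (hv : ContDiff ℝ 2 v) {Φ Φ' Φ'' : ℝ → ℝ}
    (h1 : ∀ t, HasDerivAt Φ (Φ' t) t) (h2 : ∀ t, HasDerivAt Φ' (Φ'' t) t) (e x : EN N) :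
    pd e (pd e (fun y => Φ (v y))) x =
      Φ'' (v x) * (pd e v x) ^ 2 + Φ' (v x) * pd e (pd e v) x := by
  have hd := hv.differentiable two_ne_zero
  have hpd : Differentiable ℝ (pd e v) :=
    (contDiff_pd1 hv e).differentiable one_ne_zero
  have e1 : pd e (fun y => Φ (v y)) = fun y => Φ' (v y) * pd e v y := by
    funext y; exact pd_comp hd h1 e y
  rw [e1]
  have h3 : HasFDerivAt (fun y => Φ' (v y)) (Φ'' (v x) • fderiv ℝ v x) x :=
    (h2 (v x)).comp_hasFDerivAt x (hd x).hasFDerivAt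
  have h4 : HasFDerivAt (fun y => Φ' (v y) * pd e v y)
      (Φ' (v x) • fderiv ℝ (pd e v) x + pd e v x • (Φ'' (v x) • fderiv ℝ v x)) x :=
    h3.mul (hpd x).hasFDerivAt
  have h5 : pd e (fun y => Φ' (v y) * pd e v y) x =
      (Φ' (v x) • fderiv ℝ (pd e v) x + pd e v x • (Φ'' (v x) • fderiv ℝ v x)) e := by
    show fderiv ℝ (fun y => Φ' (v y) * pd e v y) x e = _
    rw [h4.fderiv]
  rw [h5]
  simp only [add_apply, smul_apply, smul_eq_mul]
  have h6 : fderiv ℝ v x e = pd e v x := rfl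
  have h7 : fderiv ℝ (pd e v) x e = pd e (pd e v) x := rfl
  rw [h6, h7]
  ring

lemma contDiff_comp_two {v : EN N → ℝ} (hv : ContDiff ℝ 2 v) {Φ Φ' Φ'' : ℝ → ℝ}
    (h1 : ∀ t, HasDerivAt Φ (Φ' t) t) (h2 : ∀ t, HasDerivAt Φ' (Φ'' t) t)
    (h3 : Continuous Φ'') : ContDiff ℝ 2 (fun y => Φ (v y)) := by
  have hΦ'1 : ContDiff ℝ 1 Φ' := by
    rw [contDiff_one_iff_deriv]
    refine ⟨fun t => (h2 t).differentiableAt, ?_⟩
    have : deriv Φ' = Φ'' := funext fun t => (h2 t).deriv
    rw [this]; exact h3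
  have hΦ2 : ContDiff ℝ 2 Φ := by
    have : (2 : WithTop ℕ∞) = 1 + 1 := by norm_num
    rw [this, contDiff_succ_iff_deriv]
    refine ⟨fun t => (h1 t).differentiableAt, by simp, ?_⟩
    have : deriv Φ = Φ' := funext fun t => (h1 t).deriv
    rw [this]; exact hΦ'1
  exact hΦ2.comp hv

lemma kato_smooth {v φ : EN N → ℝ} (hv : ContDiff ℝ 2 v) {Φ Φ' Φ'' : ℝ → ℝ}
    (h1 : ∀ t, HasDerivAt Φ (Φ' t) t) (h2 : ∀ t, HasDerivAt Φ' (Φ'' t) t)
    (h3 : Continuous Φ'') (h4 : ∀ t, Φ'' t ≤ 0) (hφ : ContDiff ℝ 2 φ) (hc : HasCompactSupport φ)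
    (hφ0 : ∀ x, 0 ≤ φ x) :
    ∫ x, Φ (v x) * lap φ x ≤ ∫ x, (Φ' (v x) * lap v x) * φ x := by
  have hΦv := contDiff_comp_two hv h1 h2 h3
  rw [parts_lap (w := fun x => Φ (v x)) hΦv hφ hc]
  have hΦ'c : Continuous Φ' := continuous_iff_continuousAt.mpr fun t => (h2 t).continuousAt
  apply integral_mono
  · exact ((continuous_lap hΦv).mul hφ.continuous).integrable_of_hasCompactSupport hc.mul_left
  · exact (((hΦ'c.comp hv.continuous).mul (continuous_lap hv)).mul
      hφ.continuous).integrable_of_hasCompactSupport hc.mul_left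
  · intro x
    apply mul_le_mul_of_nonneg_right _ (hφ0 x)
    unfold lap
    rw [Finset.mul_sum]
    apply Finset.sum_le_sum
    intro i _
    rw [pd_pd_comp hv h1 h2]
    have := mul_nonneg (neg_nonneg.mpr (h4 (v x))) (sq_nonneg (pd (ei i) v x))
    linarith

/-! ### Convolution -/

lemma pd_cv {f ρ : EN N → ℝ} (hf : Integrable f) (hρ : ContDiff ℝ 1 ρ)
    (hc : HasCompactSupport ρ) (e : EN N) : pd e (cv f ρ) = cv f (pd e ρ) := by
  funext x
  rw [cv_eq, cv_eq]
  have h1 := hc.hasFDerivAt_convolution_right (ContinuousLinearMap.mul ℝ ℝ)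
    hf.locallyIntegrable hρ x
  unfold pd
  rw [h1.fderiv]
  exact convolution_precompR_apply (ContinuousLinearMap.mul ℝ ℝ) hf.locallyIntegrable
    (hc.fderiv (𝕜 := ℝ)) (hρ.continuous_fderiv one_ne_zero) x e

lemma cv_integrand_integrable {f ρ : EN N → ℝ} (hf : Integrable f) (hρ : Continuous ρ)
    (hc : HasCompactSupport ρ) (x : EN N) : Integrable (fun t => f t * ρ (x - t)) := by
  obtain ⟨C, hC⟩ := hc.exists_bound_of_continuous hρ
  exact hf.mul_bdd (c := C) (hρ.comp (continuous_const.sub continuous_id)).aestronglyMeasurable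
    (ae_of_all _ (fun t => hC (x - t)))

lemma lap_cv {f ρ : EN N → ℝ} (hf : Integrable f) (hρ : ContDiff ℝ 2 ρ)
    (hc : HasCompactSupport ρ) : lap (cv f ρ) = cv f (lap ρ) := by
  funext x
  unfold lap
  have h1 : ∀ i : Fin N, pd (ei i) (pd (ei i) (cv f ρ)) x = cv f (pd (ei i) (pd (ei i) ρ)) x := by
    intro i
    have hρ1 : ContDiff ℝ 1 (pd (ei i) ρ) := contDiff_pd1 hρ (ei i)
    rw [pd_cv hf (hρ.of_le (by norm_num)) hc, pd_cv hf hρ1 (hasCompactSupport_pd hc _)]
  simp_rw [h1]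
  unfold cv
  rw [← integral_finsetSum]
  · simp_rw [Finset.mul_sum]
  · intro i _
    have hρ1 : ContDiff ℝ 1 (pd (ei i) ρ) := contDiff_pd1 hρ (ei i)
    exact cv_integrand_integrable hf
      (continuous_pd hρ1 (ei i))
      (hasCompactSupport_pd (hasCompactSupport_pd hc _) _) x

lemma contDiff_cv {f ρ : EN N → ℝ} (hf : Integrable f) (hρ : ContDiff ℝ 2 ρ)
    (hc : HasCompactSupport ρ) : ContDiff ℝ 2 (cv f ρ) := by
  rw [cv_eq]
  have := hc.contDiff_convolution_right (n := 2) (ContinuousLinearMap.mul ℝ ℝ)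
    hf.locallyIntegrable (by exact_mod_cast hρ)
  exact_mod_cast this

lemma integrable_cv {f ρ : EN N → ℝ} (hf : Integrable f) (hρ : Integrable ρ) :
    Integrable (cv f ρ) := by
  rw [cv_eq]
  exact hf.integrable_convolution (ContinuousLinearMap.mul ℝ ℝ) hρ

lemma integral_abs_cv_le {f ρ : EN N → ℝ} (hf : Integrable f) (hρ : Integrable ρ)
    (hρ0 : ∀ x, 0 ≤ ρ x) (hρ1 : ∫ x, ρ x = 1) : ∫ x, |cv f ρ x| ≤ ∫ x, |f x| := by
  have h1 : ∫ x, cv (fun t => |f t|) ρ x = ∫ x, |f x| := by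
    rw [cv_eq, integral_convolution (ContinuousLinearMap.mul ℝ ℝ) hf.abs hρ, hρ1]
    simp
  rw [← h1]
  apply integral_mono (integrable_cv hf hρ).abs (integrable_cv hf.abs hρ)
  intro x
  show |cv f ρ x| ≤ cv (fun t => |f t|) ρ x
  unfold cv
  refine (abs_integral_le_integral_abs).trans (le_of_eq ?_)
  congr 1
  funext t
  rw [abs_mul, abs_of_nonneg (hρ0 _)]

/-- a sequence of bump functions supported in the ball of radius `r` -/
noncomputable def bump (N : ℕ) (r : ℝ) (hr : 0 < r) (n : ℕ) : ContDiffBump (0 : EN N) where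
  rIn := r / (2 * (n + 1))
  rOut := r / (n + 1)
  rIn_pos := by positivity
  rIn_lt_rOut := by
    apply div_lt_div_of_pos_left hr (by positivity)
    have : (0 : ℝ) < n + 1 := by positivity
    linarith

/-- the mollifiers -/
noncomputable def mol (N : ℕ) (r : ℝ) (hr : 0 < r) (n : ℕ) : EN N → ℝ :=
  (bump N r hr n).normed volume

section mol
variable (r : ℝ) (hr : 0 < r) (n : ℕ)

lemma mol_contDiff : ContDiff ℝ 2 (mol N r hr n) := (bump N r hr n).contDiff_normed (n := 2)
lemma mol_smooth : ContDiff ℝ ∞ (mol N r hr n) := (bump N r hr n).contDiff_normed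
lemma mol_compact : HasCompactSupport (mol N r hr n) := (bump N r hr n).hasCompactSupport_normed
lemma mol_nonneg (x : EN N) : 0 ≤ mol N r hr n x := (bump N r hr n).nonneg_normed x
lemma mol_integrable : Integrable (mol N r hr n) := (bump N r hr n).integrable_normed
lemma mol_integral : ∫ x, mol N r hr n x = 1 := (bump N r hr n).integral_normed

lemma mol_tsupport : tsupport (mol N r hr n) ⊆ Metric.closedBall 0 r := by
  unfold mol
  rw [(bump N r hr n).tsupport_normed_eq]
  apply Metric.closedBall_subset_closedBall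
  show r / (n + 1) ≤ r
  apply div_le_self hr.le
  have : (0 : ℝ) ≤ n := Nat.cast_nonneg n
  linarith

end mol

lemma cv_mol_ae {f : EN N → ℝ} (hf : Integrable f) (r : ℝ) (hr : 0 < r) :
    ∀ᵐ x, Tendsto (fun n => cv f (mol N r hr n) x) atTop (𝓝 (f x)) := by
  have h := ContDiffBump.ae_convolution_tendsto_right_of_locallyIntegrable (μ := volume)
    (φ := fun n => bump N r hr n) (l := atTop) (K := 2) (g := f)
    (by
      show Tendsto (fun n : ℕ => r / ((n : ℝ) + 1)) atTop (𝓝 0)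
      exact Tendsto.const_div_atTop
        (tendsto_atTop_add_const_right _ _ tendsto_natCast_atTop_atTop) r)
    (Eventually.of_forall (fun n => by
      show r / ((n : ℝ) + 1) ≤ 2 * (r / (2 * ((n : ℝ) + 1)))
      have : (0 : ℝ) < (n : ℝ) + 1 := by positivity
      apply le_of_eq
      field_simp))
    hf.locallyIntegrable
  filter_upwards [h] with x hx
  refine hx.congr (fun n => ?_)
  rw [convolution_eq_swap]
  unfold cv mol
  congr 1
  funext t
  simp only [ContinuousLinearMap.lsmul_apply, smul_eq_mul]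
  ring

lemma cv_mol_L1 {f : EN N → ℝ} (hf : Integrable f) (r : ℝ) (hr : 0 < r) :
    Tendsto (fun n => ∫ x, |cv f (mol N r hr n) x - f x|) atTop (𝓝 0) :=
  scheffe hf (fun n => integrable_cv hf (mol_integrable r hr n)) (cv_mol_ae hf r hr)
    (fun n => integral_abs_cv_le hf (mol_integrable r hr n) (mol_nonneg r hr n)
      (mol_integral r hr n))

end Pool.Agent.X97
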