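import Mathlib
import Pool.Agent.X97.Moll

open MeasureTheory Filter Topology Set
open scoped ENNReal ContDiff

namespace Pool.Agent.X97

variable {N : ℕ}

/-- Test functions on `Ω`: smooth with compact support contained in `Ω`. -/
structure IsTest (Ω : Set (EN N)) (φ : EN N → ℝ) : Prop where
  smooth : ContDiff ℝ ∞ φ
  compact : HasCompactSupport φ
  supp : tsupport φ ⊆ Ω

/-- `-Δu + f ≥ 0` in the sense of distributions on `Ω`. -/
def DistGe (Ω : Set (EN N)) (u f : EN N → ℝ) : Prop :=
  ∀ φ : EN N → ℝ, IsTest Ω φ → (∀ x, 0 ≤ φ x) →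
    0 ≤ (∫ x in Ω, u x * (-(lap φ x))) + ∫ x in Ω, f x * φ x

lemma pd_reflect {F : EN N → ℝ} (hF : Differentiable ℝ F) (e x t : EN N) :
    pd e (fun s => F (x - s)) t = -pd e F (x - t) := by
  have h1 : HasFDerivAt (fun s : EN N => x - s) (-(ContinuousLinearMap.id ℝ (EN N))) t :=
    (hasFDerivAt_id t).const_sub x
  have h2 := (hF (x - t)).hasFDerivAt.comp t h1
  have h3 : HasFDerivAt (fun s => F (x - s))
    ((fderiv ℝ F (x - t)).comp (-(ContinuousLinearMap.id ℝ (EN N)))) t := h2
  unfold pd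
  rw [h3.fderiv]
  simp

lemma lap_reflect {F : EN N → ℝ} (hF : ContDiff ℝ 2 F) (x t : EN N) :
    lap (fun s => F (x - s)) t = lap F (x - t) := by
  unfold lap
  apply Finset.sum_congr rfl
  intro i _
  have h1 : pd (ei i) (fun s => F (x - s)) = fun s => -pd (ei i) F (x - s) := by
    funext s; exact pd_reflect (hF.differentiable two_ne_zero) _ _ _
  rw [h1]
  have h2 : pd (ei i) (fun s => -pd (ei i) F (x - s)) t =
      -pd (ei i) (fun s => pd (ei i) F (x - s)) t := by
    unfold pd
    rw [fderiv_fun_neg]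
    simp
  rw [h2, pd_reflect ((contDiff_pd1 hF _).differentiable one_ne_zero)]
  simp

lemma lap_cv_le {Ω : Set (EN N)} (hΩ : IsOpen Ω) {u f : EN N → ℝ} (hu : IntegrableOn u Ω)
    (hf : IntegrableOn f Ω) (h : DistGe Ω u f) {ρ : EN N → ℝ} (hρ : ContDiff ℝ ∞ ρ)
    (hc : HasCompactSupport ρ) (hρ0 : ∀ x, 0 ≤ ρ x) {r : ℝ}
    (hs : tsupport ρ ⊆ Metric.closedBall 0 r) {x : EN N} (hx : Metric.closedBall x r ⊆ Ω) :
    lap (cv (Ω.indicator u) ρ) x ≤ cv (Ω.indicator f) ρ x := by
  have hρ2 : ContDiff ℝ 2 ρ := contDiff_infty.mp hρ 2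
  have hU : Integrable (Ω.indicator u) := hu.integrable_indicator hΩ.measurableSet
  set ψ : EN N → ℝ := fun t => ρ (x - t) with hψ
  have hψt : IsTest Ω ψ := by
    refine ⟨hρ.comp (contDiff_const.sub contDiff_id), ?_, ?_⟩
    · have : HasCompactSupport (ρ ∘ (Homeomorph.subLeft x)) := hc.comp_homeomorph _
      exact this
    · have h1 : tsupport ψ ⊆ (fun t => x - t) ⁻¹' (tsupport ρ) :=
        tsupport_comp_subset_preimage ρ (continuous_const.sub continuous_id)
      refine h1.trans (fun t ht => hx ?_)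
      have h2 := hs ht
      rw [Metric.mem_closedBall] at h2 ⊢
      rw [dist_eq_norm, sub_zero] at h2
      rw [dist_comm, dist_eq_norm]
      exact h2
  have h1 := h ψ hψt (fun t => hρ0 _)
  have h2 : ∫ t in Ω, u t * (-(lap ψ t)) = -lap (cv (Ω.indicator u) ρ) x := by
    rw [lap_cv hU hρ2 hc]
    unfold cv
    rw [← integral_neg, ← integral_indicator hΩ.measurableSet]
    congr 1
    funext t
    have hl : lap ψ t = lap ρ (x - t) := lap_reflect hρ2 x t
    by_cases ht : t ∈ Ω
    · simp [ht, hl]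
    · simp [ht]
  have h3 : ∫ t in Ω, f t * ψ t = cv (Ω.indicator f) ρ x := by
    unfold cv
    rw [← integral_indicator hΩ.measurableSet]
    congr 1
    funext t
    by_cases ht : t ∈ Ω
    · simp [ht, hψ]
    · simp [ht]
  rw [h2, h3] at h1
  linarith

/-- Kato's inequality in the sense of distributions for concave nondecreasing functions. -/
lemma kato_dist {Ω : Set (EN N)} (hΩ : IsOpen Ω) {u f : EN N → ℝ} (hu : IntegrableOn u Ω)
    (hf : IntegrableOn f Ω) (h : DistGe Ω u f) {Φ Φ' Φ'' : ℝ → ℝ}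
    (h1 : ∀ t, HasDerivAt Φ (Φ' t) t) (h2 : ∀ t, HasDerivAt Φ' (Φ'' t) t)
    (h3 : Continuous Φ'') (h4 : ∀ t, Φ'' t ≤ 0) (h5 : ∀ t, 0 ≤ Φ' t) (h6 : ∀ t, Φ' t ≤ 1) :
    DistGe Ω (fun x => Φ (u x)) (fun x => Φ' (u x) * f x) := by
  intro φ hφ hφ0
  have hφ2 : ContDiff ℝ 2 φ := contDiff_infty.mp hφ.smooth 2
  have hU : Integrable (Ω.indicator u) := hu.integrable_indicator hΩ.measurableSet
  have hF : Integrable (Ω.indicator f) := hf.integrable_indicator hΩ.measurableSet
  set U := Ω.indicator u with hUdef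
  set F := Ω.indicator f with hFdef
  obtain ⟨r, hr, hrΩ⟩ := hφ.compact.isCompact.exists_cthickening_subset_open hΩ hφ.supp
  have hΦc : Continuous Φ := continuous_iff_continuousAt.mpr fun t => (h1 t).continuousAt
  have hΦ'c : Continuous Φ' := continuous_iff_continuousAt.mpr fun t => (h2 t).continuousAt
  have hΦ'abs : ∀ t, |Φ' t| ≤ 1 := fun t => by rw [abs_of_nonneg (h5 t)]; exact h6 t
  have hLip : ∀ a b, |Φ a - Φ b| ≤ |a - b| := by
    intro a b
    have := Convex.norm_image_sub_le_of_norm_hasDerivWithin_le (C := 1) (s := univ) (f := Φ)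
      (f' := Φ') (fun x _ => (h1 x).hasDerivWithinAt) (fun x _ => by
        rw [Real.norm_eq_abs]; exact hΦ'abs x) convex_univ (mem_univ b) (mem_univ a)
    simpa using this
  obtain ⟨C1, hC1⟩ := (hasCompactSupport_lap hφ.compact).exists_bound_of_continuous
    (continuous_lap hφ2)
  obtain ⟨C2, hC2⟩ := hφ.compact.exists_bound_of_continuous hφ.smooth.continuous
  set v : ℕ → EN N → ℝ := fun n => cv U (mol N r hr n) with hv
  set G : ℕ → EN N → ℝ := fun n => cv F (mol N r hr n) with hG
  have hvc : ∀ n, ContDiff ℝ 2 (v n) := fun n => contDiff_cv hU (mol_contDiff r hr n) (mol_compact r hr n)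
  have hGc : ∀ n, Continuous (G n) := fun n =>
    (contDiff_cv hF (mol_contDiff r hr n) (mol_compact r hr n)).continuous
  have hvi : ∀ n, Integrable (v n) := fun n => integrable_cv hU (mol_integrable r hr n)
  have hGi : ∀ n, Integrable (G n) := fun n => integrable_cv hF (mol_integrable r hr n)
  -- the inequality for the mollified functions
  have hineq : ∀ n, ∫ x, Φ (v n x) * lap φ x ≤ ∫ x, (Φ' (v n x) * G n x) * φ x := by
    intro n
    refine (kato_smooth (hvc n) h1 h2 h3 h4 hφ2 hφ.compact hφ0).trans ?_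
    apply integral_mono
    · exact (((hΦ'c.comp (hvc n).continuous).mul (continuous_lap (hvc n))).mul
        hφ2.continuous).integrable_of_hasCompactSupport hφ.compact.mul_left
    · exact (((hΦ'c.comp (hvc n).continuous).mul (hGc n)).mul
        hφ2.continuous).integrable_of_hasCompactSupport hφ.compact.mul_left
    · intro x
      show (Φ' (v n x) * lap (v n) x) * φ x ≤ (Φ' (v n x) * G n x) * φ x
      by_cases hx : x ∈ tsupport φ
      · apply mul_le_mul_of_nonneg_right _ (hφ0 x)
        apply mul_le_mul_of_nonneg_left _ (h5 _)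
        refine lap_cv_le hΩ hu hf h (mol_smooth r hr n) (mol_compact r hr n) (mol_nonneg r hr n)
          (mol_tsupport r hr n) ?_
        exact (Metric.closedBall_subset_cthickening hx r).trans hrΩ
      · rw [image_eq_zero_of_notMem_tsupport hx]; simp
  -- integrability of the limits
  have hUm := hU.aestronglyMeasurable
  have hΦU : AEStronglyMeasurable (fun x => Φ (U x)) volume := hΦc.comp_aestronglyMeasurable hUm
  have hlapi : Integrable (lap φ) :=
    (continuous_lap hφ2).integrable_of_hasCompactSupport (hasCompactSupport_lap hφ.compact)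
  have hint1 : Integrable (fun x => Φ (U x) * lap φ x) := by
    have hb : Integrable (fun x => |Φ 0| * |lap φ x| + C1 * |U x|) :=
      (hlapi.abs.const_mul _).add (hU.abs.const_mul _)
    refine hb.mono' (hΦU.mul (continuous_lap hφ2).aestronglyMeasurable) (ae_of_all _ fun x => ?_)
    rw [Real.norm_eq_abs, abs_mul]
    have h7 : |Φ (U x)| ≤ |Φ 0| + |U x| := by
      have := hLip (U x) 0
      rw [sub_zero] at this
      have h8 := abs_sub_abs_le_abs_sub (Φ (U x)) (Φ 0)
      linarith
    have h9 : |lap φ x| ≤ C1 := hC1 x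
    calc |Φ (U x)| * |lap φ x| ≤ (|Φ 0| + |U x|) * |lap φ x| :=
          mul_le_mul_of_nonneg_right h7 (abs_nonneg _)
      _ = |Φ 0| * |lap φ x| + |U x| * |lap φ x| := by ring
      _ ≤ |Φ 0| * |lap φ x| + |U x| * C1 := by
          have := mul_le_mul_of_nonneg_left h9 (abs_nonneg (U x))
          linarith
      _ = _ := by ring
  -- first limit
  have hlim1 : Tendsto (fun n => ∫ x, Φ (v n x) * lap φ x) atTop (𝓝 (∫ x, Φ (U x) * lap φ x)) := by
    rw [tendsto_iff_norm_sub_tendsto_zero]
    have hz : Tendsto (fun n => C1 * ∫ x, |v n x - U x|) atTop (𝓝 0) := by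
      have := (cv_mol_L1 hU r hr).const_mul C1
      rwa [mul_zero] at this
    refine squeeze_zero (fun n => norm_nonneg _) (fun n => ?_) hz
    have hi : Integrable (fun x => Φ (v n x) * lap φ x) :=
      ((hΦc.comp (hvc n).continuous).mul (continuous_lap hφ2)).integrable_of_hasCompactSupport
        (hasCompactSupport_lap hφ.compact).mul_left
    rw [← integral_sub hi hint1, ← integral_const_mul]
    refine (norm_integral_le_integral_norm _).trans ?_
    apply integral_mono (hi.sub hint1).norm (((hvi n).sub hU).abs.const_mul _)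
    intro x
    show ‖Φ (v n x) * lap φ x - Φ (U x) * lap φ x‖ ≤ C1 * |v n x - U x|
    rw [← sub_mul, norm_mul, mul_comm]
    exact mul_le_mul (hC1 x) (hLip _ _) (norm_nonneg _) ((norm_nonneg _).trans (hC1 x))
  -- second limit
  have hFm := hF.aestronglyMeasurable
  have hint2 : ∀ n, Integrable (fun x => (Φ' (v n x) * F x) * φ x) := by
    intro n
    refine (hF.abs.const_mul C2).mono' (((hΦ'c.comp (hvc n).continuous).aestronglyMeasurable.mul
      hFm).mul hφ2.continuous.aestronglyMeasurable) (ae_of_all _ fun x => ?_)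
    rw [norm_mul, norm_mul, mul_comm C2]
    refine mul_le_mul ?_ (hC2 x) (norm_nonneg _) (abs_nonneg _)
    calc ‖Φ' (v n x)‖ * ‖F x‖ ≤ 1 * ‖F x‖ := mul_le_mul_of_nonneg_right (hΦ'abs _) (norm_nonneg _)
      _ = |F x| := by rw [one_mul, Real.norm_eq_abs]
  have hlim2 : Tendsto (fun n => ∫ x, (Φ' (v n x) * F x) * φ x) atTop
      (𝓝 (∫ x, (Φ' (U x) * F x) * φ x)) := by
    apply tendsto_integral_of_dominated_convergence (fun x => C2 * |F x|)
      (fun n => (hint2 n).aestronglyMeasurable) (hF.abs.const_mul C2)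
    · intro n
      apply ae_of_all
      intro x
      rw [norm_mul, norm_mul, mul_comm C2]
      refine mul_le_mul ?_ (hC2 x) (norm_nonneg _) (abs_nonneg _)
      calc ‖Φ' (v n x)‖ * ‖F x‖ ≤ 1 * ‖F x‖ :=
            mul_le_mul_of_nonneg_right (hΦ'abs _) (norm_nonneg _)
        _ = |F x| := by rw [one_mul, Real.norm_eq_abs]
    · filter_upwards [cv_mol_ae hU r hr] with x hx
      exact (((hΦ'c.tendsto _).comp hx).mul_const _).mul_const _
  have hlim3 : Tendsto (fun n => ∫ x, (Φ' (v n x) * (G n x - F x)) * φ x) atTop (𝓝 0) := by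
    rw [tendsto_zero_iff_norm_tendsto_zero]
    have hz : Tendsto (fun n => C2 * ∫ x, |G n x - F x|) atTop (𝓝 0) := by
      have := (cv_mol_L1 hF r hr).const_mul C2
      rwa [mul_zero] at this
    refine squeeze_zero (fun n => norm_nonneg _) (fun n => ?_) hz
    rw [← integral_const_mul]
    refine norm_integral_le_of_norm_le (((hGi n).sub hF).abs.const_mul _) (ae_of_all _ fun x => ?_)
    rw [norm_mul, norm_mul, mul_comm C2]
    refine mul_le_mul ?_ (hC2 x) (norm_nonneg _) (abs_nonneg _)
    calc ‖Φ' (v n x)‖ * ‖G n x - F x‖ ≤ 1 * ‖G n x - F x‖ :=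
          mul_le_mul_of_nonneg_right (hΦ'abs _) (norm_nonneg _)
      _ = |G n x - F x| := by rw [one_mul, Real.norm_eq_abs]
  have hlim4 : Tendsto (fun n => ∫ x, (Φ' (v n x) * G n x) * φ x) atTop
      (𝓝 (∫ x, (Φ' (U x) * F x) * φ x)) := by
    have h7 := hlim3.add hlim2
    rw [zero_add] at h7
    refine h7.congr (fun n => ?_)
    have hi3 : Integrable (fun x => (Φ' (v n x) * (G n x - F x)) * φ x) := by
      have hi4 : Integrable (fun x => (Φ' (v n x) * G n x) * φ x) :=
        (((hΦ'c.comp (hvc n).continuous).mul (hGc n)).mul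
          hφ2.continuous).integrable_of_hasCompactSupport hφ.compact.mul_left
      refine (hi4.sub (hint2 n)).congr (ae_of_all _ fun x => ?_)
      show (Φ' (v n x) * G n x) * φ x - (Φ' (v n x) * F x) * φ x = _
      ring
    rw [← integral_add hi3 (hint2 n)]
    congr 1
    funext x
    ring
  have hfin : ∫ x, Φ (U x) * lap φ x ≤ ∫ x, (Φ' (U x) * F x) * φ x :=
    le_of_tendsto_of_tendsto' hlim1 hlim4 hineq
  -- back to `Ω`
  have e1 : ∫ x in Ω, Φ (u x) * (-(lap φ x)) = -∫ x, Φ (U x) * lap φ x := by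
    rw [← integral_neg, ← integral_indicator hΩ.measurableSet]
    congr 1
    funext x
    by_cases hx : x ∈ Ω
    · simp [hUdef, hx]
    · have : lap φ x = 0 := by
        by_contra hne
        exact hx (hφ.supp (tsupport_lap φ hne))
      simp [hx, this]
  have e2 : ∫ x in Ω, (Φ' (u x) * f x) * φ x = ∫ x, (Φ' (U x) * F x) * φ x := by
    rw [← integral_indicator hΩ.measurableSet]
    congr 1
    funext x
    by_cases hx : x ∈ Ω
    · simp [hUdef, hFdef, hx]
    · simp [hFdef, hx]
  rw [e1, e2]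
  linarith

end Pool.Agent.X97
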