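import Mathlib

open MeasureTheory Filter Topology Set

namespace Pool.Agent.X97.Osc

/-- square wave with frequency `n + 1`, values `0`, `1` -/
noncomputable def sg (n : ℕ) (x : ℝ) : ℝ := if Int.fract ((n + 1) * x) < 1 / 2 then 1 else 0

lemma sg_meas (n : ℕ) : Measurable (sg n) := by
  unfold sg
  apply Measurable.ite _ measurable_const measurable_const
  exact measurableSet_lt (measurable_fract.comp (measurable_const.mul measurable_id)) measurable_const

lemma sg_sq (n : ℕ) (x : ℝ) : sg n x ^ 2 = sg n x := by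
  unfold sg; split_ifs <;> norm_num

lemma sg_cases (n : ℕ) (x : ℝ) : sg n x = 0 ∨ sg n x = 1 := by
  unfold sg; split_ifs <;> simp

lemma sg_half (n : ℕ) (x : ℝ) : sg n (x + 1 / (2 * (n + 1))) - 1 / 2 = -(sg n x - 1 / 2) := by
  have h1 : ((n : ℝ) + 1) * (x + 1 / (2 * (n + 1))) = (n + 1) * x + 1 / 2 := by
    field_simp
  unfold sg
  rw [h1]
  set y := ((n : ℝ) + 1) * x
  have hy0 := Int.fract_nonneg y
  have hy1 := Int.fract_lt_one y
  by_cases hy : Int.fract y < 1 / 2
  · have h2 : Int.fract (y + 1 / 2) = Int.fract y + 1 / 2 := by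
      rw [Int.fract_eq_iff]
      refine ⟨by linarith, by linarith, ⌊y⌋, ?_⟩
      have := Int.floor_add_fract y
      linarith
    rw [h2, if_neg (by linarith), if_pos hy]
    norm_num
  · push Not at hy
    have h2 : Int.fract (y + 1 / 2) = Int.fract y - 1 / 2 := by
      rw [Int.fract_eq_iff]
      refine ⟨by linarith, by linarith, ⌊y⌋ + 1, ?_⟩
      have := Int.floor_add_fract y
      push_cast
      linarith
    rw [h2, if_pos (by linarith), if_neg (by linarith)]
    norm_num

/-- the wave in space-time -/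
noncomputable def wv (n : ℕ) (z : ℝ × ℝ) : ℝ := sg n (z.1 - z.2)

lemma wv_meas (n : ℕ) : Measurable (wv n) := (sg_meas n).comp (measurable_fst.sub measurable_snd)

lemma wv_bdd (n : ℕ) (z : ℝ × ℝ) : |wv n z - 1 / 2| ≤ 1 / 2 := by
  unfold wv
  rcases sg_cases n (z.1 - z.2) with h | h <;> rw [h] <;> norm_num [abs_of_pos, abs_of_neg]

lemma wv_abs (n : ℕ) (z : ℝ × ℝ) : |wv n z| ≤ 1 := by
  unfold wv
  rcases sg_cases n (z.1 - z.2) with h | h <;> rw [h] <;> norm_num

/-- Riemann-Lebesgue for continuous compactly supported functions. -/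
lemma rl_cont {G : ℝ × ℝ → ℝ} (hG : Continuous G) (hc : HasCompactSupport G) :
    Tendsto (fun n => ∫ z, (wv n z - 1 / 2) * G z) atTop (𝓝 0) := by
  have hGi : Integrable G := hG.integrable_of_hasCompactSupport hc
  obtain ⟨C, hC⟩ := hc.exists_bound_of_continuous hG
  obtain ⟨R, hR⟩ := hc.isCompact.isBounded.subset_closedBall (0 : ℝ × ℝ)
  set e : ℕ → ℝ × ℝ := fun n => (1 / (2 * ((n : ℝ) + 1)), 0) with he
  have he1 : ∀ n, ‖e n‖ ≤ 1 := by
    intro n
    have h0 : (0 : ℝ) ≤ n := Nat.cast_nonneg n
    simp only [he, Prod.norm_mk, norm_zero]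
    apply max_le _ zero_le_one
    rw [Real.norm_eq_abs, abs_of_nonneg (by positivity), div_le_one (by positivity)]
    linarith
  have he0 : Tendsto e atTop (𝓝 0) := by
    have h1 : Tendsto (fun n : ℕ => 1 / (2 * ((n : ℝ) + 1))) atTop (𝓝 0) := by
      have := tendsto_one_div_add_atTop_nhds_zero_nat.const_mul (1 / 2 : ℝ)
      rw [mul_zero] at this
      refine this.congr (fun n => ?_)
      field_simp
    exact h1.prodMk_nhds tendsto_const_nhds
  -- the L¹ distance to the translate tends to zero
  have hL : Tendsto (fun n => ∫ z, |G z - G (z + e n)|) atTop (𝓝 0) := by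
    have h0 : (0 : ℝ) = ∫ _z : ℝ × ℝ, (0 : ℝ) := by simp
    rw [h0]
    apply tendsto_integral_of_dominated_convergence
      (fun z => (Metric.closedBall (0 : ℝ × ℝ) (R + 1)).indicator (fun _ => 2 * C) z)
    · intro n
      exact ((hG.sub (hG.comp (continuous_id.add continuous_const))).abs).aestronglyMeasurable
    · rw [integrable_indicator_iff Metric.isClosed_closedBall.measurableSet]
      exact integrableOn_const (measure_closedBall_lt_top.ne)
    · intro n
      apply ae_of_all
      intro z
      by_cases hz : z ∈ Metric.closedBall (0 : ℝ × ℝ) (R + 1)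
      · rw [indicator_of_mem hz]
        have h1 := hC z
        have h2 := hC (z + e n)
        rw [Real.norm_eq_abs, abs_abs]
        have h3 := abs_sub (G z) (G (z + e n))
        rw [Real.norm_eq_abs] at h1 h2
        linarith
      · rw [indicator_of_notMem hz]
        rw [Metric.mem_closedBall, dist_zero_right] at hz
        push Not at hz
        have h1 : z ∉ tsupport G := fun h => by
          have := hR h
          rw [Metric.mem_closedBall, dist_zero_right] at this
          linarith
        have h2 : z + e n ∉ tsupport G := fun h => by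
          have := hR h
          rw [Metric.mem_closedBall, dist_zero_right] at this
          have h3 : ‖z‖ ≤ ‖z + e n‖ + ‖e n‖ := by
            have := norm_sub_le (z + e n) (e n)
            rwa [add_sub_cancel_right] at this
          have := he1 n
          linarith
        rw [image_eq_zero_of_notMem_tsupport h1, image_eq_zero_of_notMem_tsupport h2]
        simp
    · apply ae_of_all
      intro z
      have h1 : Tendsto (fun n => G (z + e n)) atTop (𝓝 (G (z + 0))) :=
        (hG.tendsto _).comp (tendsto_const_nhds.add he0)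
      rw [add_zero] at h1
      have h2 := (tendsto_const_nhds (x := G z) (f := atTop)).sub h1
      rw [sub_self] at h2
      have := h2.abs
      rwa [abs_zero] at this
  -- half period trick
  have hhalf : ∀ n, ∫ z, (wv n z - 1 / 2) * G z = 1 / 2 * ∫ z, (wv n z - 1 / 2) * (G z - G (z + e n)) := by
    intro n
    have hi1 : Integrable (fun z => (wv n z - 1 / 2) * G z) :=
      hGi.bdd_mul (c := 1 / 2) ((wv_meas n).sub_const _).aestronglyMeasurable
        (ae_of_all _ fun z => wv_bdd n z)
    have hi2 : Integrable (fun z => (wv n z - 1 / 2) * G (z + e n)) :=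
      (hGi.comp_add_right (e n)).bdd_mul (c := 1 / 2)
        ((wv_meas n).sub_const _).aestronglyMeasurable (ae_of_all _ fun z => wv_bdd n z)
    have h1 : ∫ z, (wv n (z + e n) - 1 / 2) * G (z + e n) = ∫ z, (wv n z - 1 / 2) * G z :=
      integral_add_right_eq_self (μ := (volume : Measure (ℝ × ℝ)))
        (fun z => (wv n z - 1 / 2) * G z) (e n)
    have h2 : ∀ z, (wv n (z + e n) - 1 / 2) = -(wv n z - 1 / 2) := by
      intro z
      unfold wv
      have : (z + e n).1 - (z + e n).2 = z.1 - z.2 + 1 / (2 * ((n : ℝ) + 1)) := by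
        simp only [he, Prod.fst_add, Prod.snd_add]; ring
      rw [this, sg_half]
    have h3 : ∫ z, (wv n (z + e n) - 1 / 2) * G (z + e n) =
        -∫ z, (wv n z - 1 / 2) * G (z + e n) := by
      rw [← integral_neg]
      congr 1
      funext z
      rw [h2 z]; ring
    have h4 : ∫ z, (wv n z - 1 / 2) * (G z - G (z + e n)) =
        (∫ z, (wv n z - 1 / 2) * G z) - ∫ z, (wv n z - 1 / 2) * G (z + e n) := by
      rw [← integral_sub hi1 hi2]
      congr 1
      funext z
      ring
    rw [h4]
    rw [h3] at h1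
    linarith
  rw [tendsto_zero_iff_norm_tendsto_zero]
  refine squeeze_zero (fun n => norm_nonneg _) (fun n => ?_) hL
  rw [hhalf n, norm_mul]
  have hi : Integrable (fun z => |G z - G (z + e n)|) :=
    (hGi.sub (hGi.comp_add_right (e n))).abs
  have h1 : ‖∫ z, (wv n z - 1 / 2) * (G z - G (z + e n))‖ ≤ ∫ z, |G z - G (z + e n)| := by
    refine norm_integral_le_of_norm_le hi (ae_of_all _ fun z => ?_)
    rw [norm_mul]
    calc ‖wv n z - 1 / 2‖ * ‖G z - G (z + e n)‖ ≤ 1 * ‖G z - G (z + e n)‖ := by
          apply mul_le_mul_of_nonneg_right _ (norm_nonneg _)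
          have := wv_bdd n z
          rw [Real.norm_eq_abs]; linarith
      _ = _ := by rw [one_mul, Real.norm_eq_abs]
  have h2 : ‖(1 / 2 : ℝ)‖ ≤ 1 := by norm_num
  have h3 := mul_le_mul h2 h1 (norm_nonneg _) zero_le_one
  rwa [one_mul] at h3

/-- Riemann-Lebesgue for integrable functions. -/
lemma rl {G : ℝ × ℝ → ℝ} (hG : Integrable G) :
    Tendsto (fun n => ∫ z, (wv n z - 1 / 2) * G z) atTop (𝓝 0) := by
  rw [Metric.tendsto_atTop]
  intro ε hε
  obtain ⟨H, hHc, hHd, hHcont, hHi⟩ := hG.exists_hasCompactSupport_integral_sub_le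
    (half_pos hε)
  have h1 := rl_cont hHcont hHc
  rw [Metric.tendsto_atTop] at h1
  obtain ⟨n0, hn0⟩ := h1 (ε / 2) (half_pos hε)
  refine ⟨n0, fun n hn => ?_⟩
  have h2 := hn0 n hn
  rw [dist_zero_right] at h2 ⊢
  have hi1 : Integrable (fun z => (wv n z - 1 / 2) * (G z - H z)) :=
    (hG.sub hHi).bdd_mul (c := 1 / 2) ((wv_meas n).sub_const _).aestronglyMeasurable
      (ae_of_all _ fun z => wv_bdd n z)
  have hi2 : Integrable (fun z => (wv n z - 1 / 2) * H z) :=
    hHi.bdd_mul (c := 1 / 2) ((wv_meas n).sub_const _).aestronglyMeasurable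
      (ae_of_all _ fun z => wv_bdd n z)
  have h3 : ∫ z, (wv n z - 1 / 2) * G z =
      (∫ z, (wv n z - 1 / 2) * (G z - H z)) + ∫ z, (wv n z - 1 / 2) * H z := by
    rw [← integral_add hi1 hi2]
    congr 1
    funext z
    ring
  have h4 : ‖∫ z, (wv n z - 1 / 2) * (G z - H z)‖ ≤ 1 / 2 * ∫ z, ‖G z - H z‖ := by
    rw [← integral_const_mul]
    refine norm_integral_le_of_norm_le ((hG.sub hHi).norm.const_mul _) (ae_of_all _ fun z => ?_)
    rw [norm_mul]
    exact mul_le_mul_of_nonneg_right (wv_bdd n z) (norm_nonneg _)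
  rw [h3]
  calc ‖(∫ z, (wv n z - 1 / 2) * (G z - H z)) + ∫ z, (wv n z - 1 / 2) * H z‖
      ≤ ‖∫ z, (wv n z - 1 / 2) * (G z - H z)‖ + ‖∫ z, (wv n z - 1 / 2) * H z‖ := norm_add_le _ _
    _ < ε := by linarith

/-- The wave is transported: it is a weak solution of `σ_t + σ_x = 0`. -/
lemma transported (n : ℕ) {φ : ℝ × ℝ → ℝ} (hφ : ContDiff ℝ ((⊤ : ℕ∞) : WithTop ℕ∞) φ)
    (hc : HasCompactSupport φ) : ∫ z, wv n z * fderiv ℝ φ z (1, 1) = 0 := by
  have hd : Differentiable ℝ φ := hφ.differentiable (by simp)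
  have hcont : Continuous (fun z => fderiv ℝ φ z (1, 1)) :=
    (hφ.continuous_fderiv (by simp)).clm_apply continuous_const
  have hi : Integrable (fun z => fderiv ℝ φ z (1, 1)) :=
    hcont.integrable_of_hasCompactSupport (hc.fderiv_apply (𝕜 := ℝ) (1, 1))
  have hiφ : Integrable φ := hφ.continuous.integrable_of_hasCompactSupport hc
  have h := integral_bilinear_hasLineDerivAt_right_eq_neg_left_of_integrable
    (μ := (volume : Measure (ℝ × ℝ))) (f := wv n) (f' := fun _ => 0) (g := φ)
    (g' := fun z => fderiv ℝ φ z (1, 1)) (v := (1, 1)) (B := ContinuousLinearMap.mul ℝ ℝ)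
    (by simp)
    (hi.bdd_mul (c := 1) (wv_meas n).aestronglyMeasurable (ae_of_all _ fun z => wv_abs n z))
    (hiφ.bdd_mul (c := 1) (wv_meas n).aestronglyMeasurable (ae_of_all _ fun z => wv_abs n z))
    (fun x _ => by
      unfold HasLineDerivAt
      have : (fun t : ℝ => wv n (x + t • ((1 : ℝ), (1 : ℝ)))) = fun _ => wv n x := by
        funext t
        unfold wv
        congr 1
        simp
      rw [this]
      exact hasDerivAt_const _ _)
    (fun x _ => (hd x).hasFDerivAt.hasLineDerivAt _)
  simpa using h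

lemma integral_fderiv_zero {φ : ℝ × ℝ → ℝ} (hφ : ContDiff ℝ ((⊤ : ℕ∞) : WithTop ℕ∞) φ)
    (hc : HasCompactSupport φ) (v : ℝ × ℝ) : ∫ z, fderiv ℝ φ z v = 0 := by
  have hd : Differentiable ℝ φ := hφ.differentiable (by simp)
  have hcont : Continuous (fun z => fderiv ℝ φ z v) :=
    (hφ.continuous_fderiv (by simp)).clm_apply continuous_const
  have hi : Integrable (fun z => fderiv ℝ φ z v) :=
    hcont.integrable_of_hasCompactSupport (hc.fderiv_apply (𝕜 := ℝ) v)
  have hiφ : Integrable φ := hφ.continuous.integrable_of_hasCompactSupport hc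
  have h := integral_mul_fderiv_eq_neg_fderiv_mul_of_integrable (μ := (volume : Measure (ℝ × ℝ)))
    (f := fun _ => (1 : ℝ)) (g := φ) (v := v) (by simp) (by simpa using hi) (by simpa using hiφ)
    (fun x _ => by fun_prop) (fun x _ => hd x)
  simpa using h

end Pool.Agent.X97.Osc
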